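import Pool.Agent.R620.NC.RegMain

/-!
# The regularity axiom for contact algebras is not first-order

Let `A` be the algebra of the clopen sets and `R` the algebra of the regular open sets of the Cantor
space, and let `(a, r)` and `(a', r')` in `A × R` be in contact if `a ∨ r` and `a' ∨ r'` are not
disjoint. A co-end containing `(1, 0)` and `(0, 1)` would give an ultrafilter of `R` generated by
the clopen sets, and there is none. In a countable elementary substructure, closed under suitable
further functions, every two elements in contact belong to a co-end given by a generic sequence.
-/

set_option autoImplicit false

namespace Pool.Agent.Results.MP_50aa38_lc.NotElementary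

open Pool.Agent.R620.NC

/-- No set of first-order formulas in the language of contact algebras has as its models among
the contact algebras exactly those satisfying the regularity axiom. -/
theorem result (Φ : Set Fm) :
    ¬ ∀ S : Str.{0}, S.IsCA → ((∀ φ ∈ Φ, ∀ v, S.Sat v φ) ↔ S.Reg) :=
  reg_main Φ

end Pool.Agent.Results.MP_50aa38_lc.NotElementary
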